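import Pool.Agent.TMX.Stmts2

/-! Squad TMX, row Gain1 (helper25); follows `Helper75_TMX/Gain.lean`. -/

namespace Pool.Agent.TMX.H25

open Finset Pool.Agent.TMX
open Pool.Agent.Helper51_Max (I IsMax)

/-- the ball inequality, shifted by `u` -/
theorem ball_ge {N : ℕ} {g M : ℕ → ℝ} (h : IsMax N g M) {v : ℕ} (hv : v ≤ N) (u : ℝ)
    {ρ a e : ℕ} (hI : I N v ρ = Icc a e) (hae : a ≤ e + 1) :
    ∑ i ∈ Icc a e, (g i - u) ≤ ((e : ℝ) + 1 - a) * (M v - u) := by
  have h1 := h.le v hv ρ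
  rw [hI, Nat.card_Icc, Nat.cast_sub hae] at h1
  rw [sum_sub_distrib, sum_const, Nat.card_Icc, nsmul_eq_mul, Nat.cast_sub hae]
  push_cast at h1 ⊢
  linarith

theorem gain1 : Gain1 := by
  intro gainP gapI N g M hM y z z' r u hg hu0 huC hyu hz'u
  obtain ⟨hyz, hzz', hrz, heN, hzyr, hz'e, hz'yr, hopt, hMy, hMz'⟩ := hg
  have hP := gainP gapI N g M hM y z z' r u
    ⟨hyz, hzz', hrz, heN, hzyr, hz'e, hz'yr, hopt, hMy, hMz'⟩ huC hyu hz'u
  -- the ball of z
  have hIz : I N z r = Icc (z - r) (z + r) := by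
    unfold Helper51_Max.I
    rw [min_eq_left (by omega)]
  have hG : ∑ i ∈ Icc (z - r) (z + r), (g i - u) = (2 * (r : ℝ) + 1) * (M z - u) := by
    rw [hIz, Nat.card_Icc, Nat.cast_sub (by omega)] at hopt
    rw [sum_sub_distrib, sum_const, Nat.card_Icc, nsmul_eq_mul, Nat.cast_sub (by omega)]
    rw [← hopt, Nat.cast_sub (by omega : r ≤ z)]
    push_cast
    ring
  -- F1
  have hI1 : I N y (r + (z - y)) = Icc (y - (r + (z - y))) (z + r) := by
    unfold Helper51_Max.I
    rw [min_eq_left (by omega)]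
    congr 1
    omega
  have F1a := ball_ge hM (by omega : y ≤ N) u hI1 (by omega)
  have F1b : ∑ i ∈ Icc (z - r) (z + r), (g i - u) ≤
      ∑ i ∈ Icc (y - (r + (z - y))) (z + r), (g i - u) := by
    apply sum_le_sum_of_subset_of_nonneg
    · intro i hi
      rw [mem_Icc] at hi ⊢
      omega
    · intro i hi hi'
      rw [mem_Icc] at hi hi'
      have := hu0 i (by omega)
      linarith
  have F1c : ((z + r : ℕ) : ℝ) + 1 - ((y - (r + (z - y)) : ℕ) : ℝ) ≤
      2 * (r : ℝ) + 1 + 2 * ((z : ℝ) - y) := by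
    have h1 : z + r + 1 ≤ 2 * r + 1 + 2 * (z - y) + (y - (r + (z - y))) := by omega
    have h2 : ((z + r + 1 : ℕ) : ℝ) ≤
        ((2 * r + 1 + 2 * (z - y) + (y - (r + (z - y))) : ℕ) : ℝ) := by exact_mod_cast h1
    push_cast [Nat.cast_sub (by omega : y ≤ z)] at h2
    push_cast
    linarith
  have F1 : (2 * (r : ℝ) + 1) * (M z - u) ≤
      (2 * (r : ℝ) + 1 + 2 * ((z : ℝ) - y)) * (M y - u) := by
    rw [← hG]
    refine F1b.trans (F1a.trans ?_)
    exact mul_le_mul_of_nonneg_right F1c (by linarith)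
  -- F2
  have hI2 : I N y (y + r - z) = Icc (z - r) (2 * y + r - z) := by
    unfold Helper51_Max.I
    rw [min_eq_left (by omega)]
    congr 1 <;> omega
  have F2a := ball_ge hM (by omega : y ≤ N) u hI2 (by omega)
  have F2b : ∑ i ∈ Icc (z - r) (z + r), (g i - u) ≤
      ∑ i ∈ Icc (z - r) (2 * y + r - z), (g i - u) +
        ∑ i ∈ Icc (2 * z' - (z + r)) (z + r), (g i - u) := by
    rw [← sum_union_inter]
    have hun : Icc (z - r) (2 * y + r - z) ∪ Icc (2 * z' - (z + r)) (z + r) =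
        Icc (z - r) (z + r) := by
      ext i
      rw [mem_union, mem_Icc, mem_Icc, mem_Icc]
      omega
    rw [hun]
    have hin : 0 ≤ ∑ i ∈ Icc (z - r) (2 * y + r - z) ∩ Icc (2 * z' - (z + r)) (z + r),
        (g i - u) := by
      apply sum_nonneg
      intro i hi
      rw [mem_inter, mem_Icc, mem_Icc] at hi
      have := huC i (by omega) (by omega)
      linarith
    linarith
  have F2c : ((2 * y + r - z : ℕ) : ℝ) + 1 - ((z - r : ℕ) : ℝ) =
      2 * (r : ℝ) + 1 - 2 * ((z : ℝ) - y) := by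
    rw [Nat.cast_sub (by omega), Nat.cast_sub (by omega)]
    push_cast
    ring
  rw [F2c] at F2a
  -- F3
  have hI3 : I N z' (z + r - z') = Icc (2 * z' - (z + r)) (z + r) := by
    unfold Helper51_Max.I
    rw [min_eq_left (by omega)]
    congr 1 <;> omega
  have F3a := ball_ge hM (by omega : z' ≤ N) u hI3 (by omega)
  have F3c : ((z + r : ℕ) : ℝ) + 1 - ((2 * z' - (z + r) : ℕ) : ℝ) ≤ 2 * (r : ℝ) + 1 := by
    rw [Nat.cast_sub (by omega)]
    have : (z : ℝ) < z' := by exact_mod_cast hzz'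
    push_cast
    linarith
  have F3 : ∑ i ∈ Icc (2 * z' - (z + r)) (z + r), (g i - u) ≤
      (2 * (r : ℝ) + 1) * (M z' - u) :=
    F3a.trans (mul_le_mul_of_nonneg_right F3c (by linarith))
  have hq : 2 * (r : ℝ) + 1 ≤ (N : ℝ) + 1 := by
    have : 2 * r ≤ N := by omega
    have : ((2 * r : ℕ) : ℝ) ≤ N := by exact_mod_cast this
    push_cast at this
    linarith
  have hfin := mul_le_mul_of_nonneg_right hq (by linarith : 0 ≤ M y + M z' - M z - u)
  have key : ∑ i ∈ Icc (2 * z' - (z + r)) (z + r), (g i - u) ≤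
      2 * ((2 * (r : ℝ) + 1) * (M y + M z' - M z - u)) := by
    rw [hG] at F2b
    nlinarith
  linarith

end Pool.Agent.TMX.H25
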