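import Pool.Agent.TMX.Stmts2

/-! Squad TMX, row GainP (helper25). -/

namespace Pool.Agent.TMX.H25

open Finset Pool.Agent.TMX
open Pool.Agent.Helper51_Max (I IsMax)

theorem gainP : GainP := by
  intro gapI N g M hM y z z' r u hg huC hyu hz'u
  obtain ⟨hyz, hzz', hrz, heN, hzyr, hz'e, hz'yr, hopt, -, -⟩ := hg
  have h := gapI N g M hM y z z' r u hyz hzz' hrz heN hzyr hz'e hz'yr hopt huC
  have h1 : (y : ℝ) ≤ z := by exact_mod_cast hyz.le
  have h2 : (z : ℝ) ≤ z' := by exact_mod_cast hzz'.le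
  have hr : (0 : ℝ) ≤ r := Nat.cast_nonneg r
  have a1 : (2 * ((y : ℝ) + r - z) + 1) * (M y - u) ≤ (2 * (r : ℝ) + 1) * (M y - u) :=
    mul_le_mul_of_nonneg_right (by linarith) (by linarith)
  have a2 : (2 * ((z : ℝ) + r - z') + 1) * (M z' - u) ≤ (2 * (r : ℝ) + 1) * (M z' - u) :=
    mul_le_mul_of_nonneg_right (by linarith) (by linarith)
  have h3 : (2 * (r : ℝ) + 1) * (M z - u) ≤ (2 * (r : ℝ) + 1) * ((M y - u) + (M z' - u)) := by
    linarith
  have h4 : M z - u ≤ (M y - u) + (M z' - u) := le_of_mul_le_mul_left h3 (by linarith)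
  linarith

end Pool.Agent.TMX.H25
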